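import Pool.Agent.Lib.MP_4fbe7c_an.WN.Base

/-!
Project WN, module DVW (helper3): the time derivative of the functional.
-/

set_option autoImplicit false

open Set MeasureTheory

namespace Pool.Agent.Lib.MP_4fbe7c_an.WN.H03

open Pool.Agent.Lib.MP_4fbe7c_an.UL Pool.Agent.Lib.MP_4fbe7c_an.ND
  Pool.Agent.Lib.MP_4fbe7c_an.WN

/-! ### Continuity -/

section cont

variable {X : Type*} [TopologicalSpace X] {s : Set X} {n : ℕ} {r : ℕ → X → ℝ}

theorem cont_qv (hr : ∀ i, i ≤ n → ContinuousOn (r i) s) (k : ℕ) :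
    ContinuousOn (fun x => qv n (fun i => r i x) k) s := by
  unfold qv
  exact continuousOn_finsetSum _ fun i hi => hr i (by have := (Finset.mem_Ico.mp hi).2; omega)

theorem cont_Nq (κ : ℕ → ℝ) (a b : ℝ) (hr : ∀ i, i ≤ n → ContinuousOn (r i) s) :
    ContinuousOn (fun x => Nq n κ a b (fun i => r i x)) s := by
  unfold Nq
  exact (continuousOn_const.mul ((cont_qv hr 1).pow 2)).add (continuousOn_const.mul
    (continuousOn_finsetSum _ fun k _ => continuousOn_const.mul ((cont_qv hr k).pow 2)))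

theorem cont_Sb (κ : ℕ → ℝ) (a b : ℝ) (hr : ∀ i, i ≤ n → ContinuousOn (r i) s) (i : ℕ) :
    ContinuousOn (fun x => Sb n κ a b (fun i => r i x) i) s := by
  unfold Sb
  exact (continuousOn_const.mul (cont_qv hr 1)).add (continuousOn_const.mul
    (continuousOn_finsetSum _ fun k _ => continuousOn_const.mul (cont_qv hr k)))

theorem continuous_hw : Continuous hw := by unfold hw; fun_prop

theorem continuous_hw1 : Continuous hw1 := by unfold hw1; fun_prop

theorem cont_Fh (hPhi : PhiStatement) (κ : ℕ → ℝ) (a b : ℝ)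
    (hr : ∀ i, i ≤ n → ContinuousOn (r i) s) (h0 : ∀ x ∈ s, 0 < r 0 x) :
    ContinuousOn (fun x => Fh n κ a b (fun i => r i x)) s := by
  unfold Fh
  refine ((?_ : ContinuousOn (fun x => Ph (r 0 x)) s).add
    (((cont_qv hr 1).pow 2).div_const 2)).add
    (((continuous_hw.comp_continuousOn (cont_qv hr 0)).div_const 2).mul (cont_Nq κ a b hr))
  intro x hx
  exact (hPhi.1 _ (h0 x hx)).1.continuousAt.comp_continuousWithinAt (hr 0 (Nat.zero_le n) x hx)

theorem cont_Ff (hPhi : PhiStatement) (κ : ℕ → ℝ) (a b : ℝ)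
    (hr : ∀ i, i ≤ n → ContinuousOn (r i) s) (h0 : ∀ x ∈ s, 0 < r 0 x) (i : ℕ) :
    ContinuousOn (fun x => Ff n κ a b (fun i => r i x) i) s := by
  unfold Ff
  have h2 : ContinuousOn (fun x => hw1 (qv n (fun i => r i x) 0) / 2 *
      Nq n κ a b (fun i => r i x)) s :=
    ((continuous_hw1.comp_continuousOn (cont_qv hr 0)).div_const 2).mul (cont_Nq κ a b hr)
  by_cases hi : i = 0
  · simp only [hi, if_true]
    refine ContinuousOn.add ?_ h2
    intro x hx
    exact (hPhi.1 _ (h0 x hx)).2.1.continuousAt.comp_continuousWithinAt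
      (hr 0 (Nat.zero_le n) x hx)
  · simp only [hi, if_false]
    exact ((cont_qv hr 1).add ((continuous_hw.comp_continuousOn (cont_qv hr 0)).mul
      (cont_Sb κ a b hr i))).add h2

end cont

/-! ### The gradient of a quotient -/

theorem quot_C1 {p : ℕ} {Ω : Set (Eu p)} {θ f : Eu p → ℝ} {θ' f' : Eu p → Eu p}
    (hθ : C1 Ω θ θ') (hf : C1 Ω f f') (h0 : ∀ x ∈ closure Ω, θ x ≠ 0) :
    C1 Ω (fun x => f x / θ x) (fun x => (θ x)⁻¹ • (f' x - (f x / θ x) • θ' x)) := by
  have h1 : C1 Ω (fun x => (θ x)⁻¹) (fun x => (-((θ x) ^ 2)⁻¹) • θ' x) := by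
    refine ⟨hθ.c0.inv₀ h0, ?_, fun x hx => ?_⟩
    · exact (((hθ.c0.pow 2).inv₀ fun x hx => pow_ne_zero 2 (h0 x hx)).neg).smul hθ.c1
    · exact HasGradientAt.comp' (hasDerivAt_inv (h0 x (subset_closure hx))) (hθ.d1 x hx)
  have h2 := hf.mul h1
  have e1 : (fun x => f x / θ x) = fun x => f x * (θ x)⁻¹ := by
    funext x; rw [div_eq_mul_inv]
  have e2 : (fun x => (θ x)⁻¹ • (f' x - (f x / θ x) • θ' x)) =
      fun x => f x • (-((θ x) ^ 2)⁻¹) • θ' x + (θ x)⁻¹ • f' x := by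
    funext x
    rw [smul_sub, smul_smul, smul_smul, sub_eq_add_neg, add_comm, ← neg_smul]
    congr 2
    rw [div_eq_mul_inv, pow_two, mul_inv]
    ring
  rw [e1, e2]
  exact h2

/-! ### The pointwise identity -/

theorem point {p : ℕ} (ρ₀ K θ f F : ℝ) (θ' f' G : Eu p) (hθ : θ ≠ 0) :
    -(ρ₀ * (1 + K)) * inner ℝ (θ • G + F • θ') f' + ρ₀ * inner ℝ (F • f' + f • G) θ'
      = -(ρ₀ * (θ ^ 2 * (inner ℝ (θ⁻¹ • (f' - (f / θ) • θ')) G
          + K * inner ℝ (θ⁻¹ • f') (G + F • θ⁻¹ • θ')))) := by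
  simp only [inner_add_left, inner_add_right, inner_sub_left, real_inner_smul_left,
    real_inner_smul_right]
  have e1 : inner ℝ G f' = inner ℝ f' G := real_inner_comm _ _
  have e2 : inner ℝ θ' f' = inner ℝ f' θ' := real_inner_comm _ _
  have e3 : inner ℝ θ' G = inner ℝ G θ' := real_inner_comm _ _
  rw [e1, e2, e3]
  field_simp
  ring

theorem dvw_st (hPhi : PhiStatement) (hDrt : DrtStatement) (hDrg : DrgStatement)
    (hDif : DifStatement) (hIbp : IbpStatement) : DvwStatement := by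
  intro p Ω q m θ θ' θ'' n ρ u v w hsol hwin hst t ht
  have hΩ := hsol.dom
  have hρ0 : 0 < ρ 0 := hwin.ord.pos
  have hk1 : ∀ {k : ℕ}, k ∈ Finset.range (n + 1) → k ≤ n := fun hk =>
    Nat.lt_succ_iff.mp (Finset.mem_range.mp hk)
  have θpos := hst.pos
  have θne : ∀ x ∈ closure Ω, θ x ≠ 0 := fun x hx => (θpos x hx).ne'
  have hC := hst.c2.toC1
  set κ := kr ρ with hκ
  set a := wa (Kr ρ) with ha
  set b := wb (Kr ρ) with hb
  -- continuity in `(t, x)`
  have cu : ∀ i, i ≤ n → ContinuousOn (fun z : ℝ × Eu p => u i z.1 z.2) (Ioi 0 ×ˢ closure Ω) :=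
    fun i hi => (hsol.evo i hi).cz.mono (prod_mono Ioi_subset_Ici_self Subset.rfl)
  have snd : ∀ g : Eu p → ℝ, ContinuousOn g (closure Ω) →
      ContinuousOn (fun z : ℝ × Eu p => g z.2) (Ioi 0 ×ˢ closure Ω) := fun g hg =>
    hg.comp continuous_snd.continuousOn fun z hz => hz.2
  have cr : ∀ i, i ≤ n → ContinuousOn (fun z : ℝ × Eu p => u i z.1 z.2 / θ z.2)
      (Ioi 0 ×ˢ closure Ω) := fun i hi =>
    (cu i hi).div (snd θ hC.c0) fun z hz => θne z.2 hz.2
  have r0 : ∀ z ∈ Ioi (0 : ℝ) ×ˢ closure Ω, 0 < u 0 z.1 z.2 / θ z.2 := fun z hz =>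
    div_pos (hsol.pos 0 (Nat.zero_le n) z.1 hz.1 z.2 hz.2) (θpos z.2 hz.2)
  let U : ℝ → Eu p → ℝ := fun s x => ∑ j ∈ Finset.range (n + 1), u j s x
  have cU : ContinuousOn (fun z : ℝ × Eu p => U z.1 z.2) (Ioi 0 ×ˢ closure Ω) :=
    continuousOn_finsetSum _ fun i hi => cu i (hk1 hi)
  let ut : ℕ → ℝ → Eu p → ℝ := fun i s x => ρ i * tr (w i s x) + u i s x * (m x - U s x)
  have cut : ∀ i, i ≤ n → ContinuousOn (fun z : ℝ × Eu p => ut i z.1 z.2)
      (Ioi 0 ×ˢ closure Ω) := fun i hi =>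
    (continuousOn_const.mul (continuous_tr.comp_continuousOn (hsol.evo i hi).cH)).add
        ((cu i hi).mul ((snd m hsol.cm).sub cU))
  let φ : ℝ → Eu p → ℝ := fun s x => θ x ^ 2 * Fh n κ a b (fun i => u i s x / θ x)
  let φ' : ℝ → Eu p → ℝ := fun s x => θ x ^ 2 * ∑ i ∈ Finset.range (n + 1),
    Ff n κ a b (fun i => u i s x / θ x) i * (ut i s x / θ x)
  have cφ : ContinuousOn (fun z : ℝ × Eu p => φ z.1 z.2) (Ioi 0 ×ˢ closure Ω) :=
    ((snd θ hC.c0).pow 2).mul (cont_Fh hPhi κ a b cr r0)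
  have cφ' : ContinuousOn (fun z : ℝ × Eu p => φ' z.1 z.2) (Ioi 0 ×ˢ closure Ω) :=
    ((snd θ hC.c0).pow 2).mul (continuousOn_finsetSum _ fun i hi =>
      (cont_Ff hPhi κ a b cr r0 i).mul ((cut i (hk1 hi)).div (snd θ hC.c0)
        fun z hz => θne z.2 hz.2))
  have dφ : ∀ s, 0 < s → ∀ x ∈ Ω, HasDerivAt (fun s => φ s x) (φ' s x) s := by
    intro s hs x hx
    have hx' := subset_closure hx
    have h1 := hDrt n κ a b (fun i s => u i s x / θ x) (fun i => ut i s x / θ x) s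
      (fun i hi => ((hsol.evo i hi).dt s hs x hx').div_const (θ x))
      (div_pos (hsol.pos 0 (Nat.zero_le n) s hs x hx') (θpos x hx'))
    exact h1.const_mul (θ x ^ 2)
  have hD := hDif p Ω q φ φ' hΩ cφ cφ' dφ t ht
  refine hD.congr_deriv ?_
  -- the value
  let F : ℕ → Eu p → ℝ := fun i x => Ff n κ a b (fun j => u j t x / θ x) i
  let G : ℕ → Eu p → Eu p := fun i x => Gf n κ a b (fun j => u j t x / θ x)
    (rg (θ x) (θ' x) (fun i => u i t x) (fun i => v i t x)) i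
  have hu : ∀ i, i ≤ n → C1 Ω (u i t) (v i t) := fun i hi => (hsol.evo i hi).C1 ht
  have hr : ∀ i, i ≤ n → C1 Ω (fun x => u i t x / θ x)
      (fun x => rg (θ x) (θ' x) (fun i => u i t x) (fun i => v i t x) i) := fun i hi =>
    quot_C1 hC (hu i hi) θne
  have hF : ∀ i, i ≤ n → C1 Ω (F i) (G i) := fun i hi =>
    hDrg p Ω q n κ a b (fun j x => u j t x / θ x)
      (fun j x => rg (θ x) (θ' x) (fun i => u i t x) (fun i => v i t x) j) i hΩ hi hr
      (fun x hx => div_pos (hsol.pos 0 (Nat.zero_le n) t ht x hx) (θpos x hx))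
  have sU : ContinuousOn (U t) (closure Ω) := continuousOn_finsetSum _ fun i hi =>
    (hu i (hk1 hi)).c0
  have stw : ∀ i, i ≤ n → ContinuousOn (fun x => tr (w i t x)) (closure Ω) := fun i hi =>
    continuous_tr.comp_continuousOn ((hsol.evo i hi).C2 ht).c2
  have stθ : ContinuousOn (fun x => tr (θ'' x)) (closure Ω) :=
    continuous_tr.comp_continuousOn hst.c2.c2
  have b1 : ∀ i, i ≤ n → ∫ x in Ω, (θ x * F i x) * tr (w i t x)
      = -∫ x in Ω, inner ℝ (θ x • G i x + F i x • θ' x) (v i t x) := fun i hi =>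
    hIbp p Ω q _ _ (v i t) (w i t) hΩ (hC.mul (hF i hi)) (hu i hi).c1
      ((hsol.evo i hi).C2 ht).c2 ((hsol.evo i hi).dxx t ht) ((hsol.evo i hi).neu t ht)
  have b2 : ∀ i, i ≤ n → ∫ x in Ω, (F i x * u i t x) * tr (θ'' x)
      = -∫ x in Ω, inner ℝ (F i x • v i t x + u i t x • G i x) (θ' x) := fun i hi =>
    hIbp p Ω q _ _ θ' θ'' hΩ ((hF i hi).mul (hu i hi)) hC.c1 hst.c2.c2 hst.c2.d2 hst.neu
  let L : ℕ → Eu p → ℝ := fun i x => ρ i * ((θ x * F i x) * tr (w i t x))
    - ρ 0 * ((F i x * u i t x) * tr (θ'' x)) + θ x * F i x * u i t x * (θ x - U t x)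
  let R : ℕ → Eu p → ℝ := fun i x =>
    -(ρ i) * inner ℝ (θ x • G i x + F i x • θ' x) (v i t x)
      + ρ 0 * inner ℝ (F i x • v i t x + u i t x • G i x) (θ' x)
      + θ x * F i x * u i t x * (θ x - U t x)
  have c1 : ∀ i, i ≤ n → ContinuousOn (fun x => (θ x * F i x) * tr (w i t x)) (closure Ω) :=
    fun i hi => (hC.c0.mul (hF i hi).c0).mul (stw i hi)
  have c2 : ∀ i, i ≤ n → ContinuousOn (fun x => (F i x * u i t x) * tr (θ'' x)) (closure Ω) :=
    fun i hi => ((hF i hi).c0.mul (hu i hi).c0).mul stθ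
  have c3 : ∀ i, i ≤ n → ContinuousOn (fun x => θ x * F i x * u i t x * (θ x - U t x))
      (closure Ω) := fun i hi =>
    ((hC.c0.mul (hF i hi).c0).mul (hu i hi).c0).mul (hC.c0.sub sU)
  have c4 : ∀ i, i ≤ n → ContinuousOn (fun x => inner ℝ (θ x • G i x + F i x • θ' x) (v i t x))
      (closure Ω) := fun i hi =>
    ((hC.c0.smul (hF i hi).c1).add ((hF i hi).c0.smul hC.c1)).inner (hu i hi).c1
  have c5 : ∀ i, i ≤ n → ContinuousOn
      (fun x => inner ℝ (F i x • v i t x + u i t x • G i x) (θ' x)) (closure Ω) := fun i hi =>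
    (((hF i hi).c0.smul (hu i hi).c1).add ((hu i hi).c0.smul (hF i hi).c1)).inner hC.c1
  have cL : ∀ i, i ≤ n → ContinuousOn (L i) (closure Ω) := fun i hi =>
    ((continuousOn_const.mul (c1 i hi)).sub (continuousOn_const.mul (c2 i hi))).add (c3 i hi)
  have cR : ∀ i, i ≤ n → ContinuousOn (R i) (closure Ω) := fun i hi =>
    ((continuousOn_const.mul (c4 i hi)).add (continuousOn_const.mul (c5 i hi))).add (c3 i hi)
  have LR : ∀ i, i ≤ n → ∫ x in Ω, L i x = ∫ x in Ω, R i x := by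
    intro i hi
    have i1 : IntegrableOn (fun x => ρ i * ((θ x * F i x) * tr (w i t x))) Ω :=
      hΩ.integrableOn (continuousOn_const.mul (c1 i hi))
    have i2 : IntegrableOn (fun x => ρ 0 * ((F i x * u i t x) * tr (θ'' x))) Ω :=
      hΩ.integrableOn (continuousOn_const.mul (c2 i hi))
    have i3 := hΩ.integrableOn (c3 i hi)
    have i4 : IntegrableOn (fun x => -(ρ i) * inner ℝ (θ x • G i x + F i x • θ' x) (v i t x))
        Ω := hΩ.integrableOn (continuousOn_const.mul (c4 i hi))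
    have i5 : IntegrableOn (fun x => ρ 0 * inner ℝ (F i x • v i t x + u i t x • G i x) (θ' x))
        Ω := hΩ.integrableOn (continuousOn_const.mul (c5 i hi))
    have i12 : IntegrableOn (fun x => ρ i * ((θ x * F i x) * tr (w i t x))
      - ρ 0 * ((F i x * u i t x) * tr (θ'' x))) Ω := i1.sub i2
    have i45 : IntegrableOn (fun x => -(ρ i) * inner ℝ (θ x • G i x + F i x • θ' x) (v i t x)
      + ρ 0 * inner ℝ (F i x • v i t x + u i t x • G i x) (θ' x)) Ω := i4.add i5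
    show (∫ x in Ω, (ρ i * ((θ x * F i x) * tr (w i t x))
      - ρ 0 * ((F i x * u i t x) * tr (θ'' x)) + θ x * F i x * u i t x * (θ x - U t x))) =
      ∫ x in Ω, (-(ρ i) * inner ℝ (θ x • G i x + F i x • θ' x) (v i t x)
      + ρ 0 * inner ℝ (F i x • v i t x + u i t x • G i x) (θ' x)
      + θ x * F i x * u i t x * (θ x - U t x))
    rw [integral_add i12 i3, integral_sub i1 i2, integral_add i45 i3, integral_add i4 i5,
      integral_const_mul, integral_const_mul, integral_const_mul, integral_const_mul,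
      b1 i hi, b2 i hi]
    ring
  have e1 : ∫ x in Ω, φ' t x = ∫ x in Ω, ∑ i ∈ Finset.range (n + 1), L i x := by
    refine setIntegral_congr_fun hΩ.measurableSet fun x hx => ?_
    have hx' := subset_closure hx
    have hθx := θne x hx'
    have heq := hst.eq x hx'
    show θ x ^ 2 * ∑ i ∈ Finset.range (n + 1),
      Ff n κ a b (fun i => u i t x / θ x) i * (ut i t x / θ x) = _
    rw [Finset.mul_sum]
    refine Finset.sum_congr rfl fun i _ => ?_
    show θ x ^ 2 * (F i x * ((ρ i * tr (w i t x) + u i t x * (m x - U t x)) / θ x)) =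
      ρ i * ((θ x * F i x) * tr (w i t x))
        - ρ 0 * ((F i x * u i t x) * tr (θ'' x)) + θ x * F i x * u i t x * (θ x - U t x)
    have e : θ x ^ 2 * (F i x * ((ρ i * tr (w i t x) + u i t x * (m x - U t x)) / θ x)) =
        θ x * (F i x * (ρ i * tr (w i t x) + u i t x * (m x - U t x))) := by
      field_simp
    rw [e]
    linear_combination (-F i x * u i t x) * (-heq)
  have e2 : ∫ x in Ω, ∑ i ∈ Finset.range (n + 1), L i x
      = ∫ x in Ω, ∑ i ∈ Finset.range (n + 1), R i x := by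
    rw [integral_finsetSum _ fun i hi => hΩ.integrableOn (cL i (hk1 hi)),
      integral_finsetSum _ fun i hi => hΩ.integrableOn (cR i (hk1 hi))]
    exact Finset.sum_congr rfl fun i hi => LR i (hk1 hi)
  rw [e1, e2]
  refine setIntegral_congr_fun hΩ.measurableSet fun x hx => ?_
  have hx' := subset_closure hx
  have hθx := θne x hx'
  -- the pointwise value
  let T : ℕ → ℝ := fun i => inner ℝ (rg (θ x) (θ' x) (fun i => u i t x) (fun i => v i t x) i)
    (G i x)
  let S : ℕ → ℝ := fun i => inner ℝ ((θ x)⁻¹ • v i t x) (G i x + F i x • (θ x)⁻¹ • θ' x)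
  have hR : ∀ i, ∀ K : ℝ, ρ i = ρ 0 * (1 + K) → R i x = -(ρ 0 * (θ x ^ 2 * (T i + K * S i)))
      + θ x * F i x * u i t x * (θ x - U t x) := by
    intro i K hK
    show -(ρ i) * inner ℝ (θ x • G i x + F i x • θ' x) (v i t x)
      + ρ 0 * inner ℝ (F i x • v i t x + u i t x • G i x) (θ' x)
      + θ x * F i x * u i t x * (θ x - U t x) = _
    rw [hK, point (ρ 0) K (θ x) (u i t x) (F i x) (θ' x) (v i t x) (G i x) hθx]
    rfl
  have hK0 : ρ 0 = ρ 0 * (1 + 0) := by ring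
  have hKi : ∀ i, ρ i = ρ 0 * (1 + (Kr ρ + κ i)) := by
    intro i
    rw [hκ]
    unfold Kr kr
    field_simp
    ring
  have hQ : QfW n ρ (θ x) (θ' x) (fun i => u i t x) (fun i => v i t x) =
      ∑ i ∈ Finset.range (n + 1), T i + ∑ i ∈ Finset.Ico 1 (n + 1), (Kr ρ + κ i) * S i := rfl
  have hRe : θ x ^ 3 * ReW n ρ (θ x) (fun i => u i t x) =
      ∑ i ∈ Finset.range (n + 1), -(θ x * F i x * u i t x * (θ x - U t x)) := by
    have e3 : qv n (fun i => u i t x / θ x) 0 = U t x / θ x := by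
      rw [qv_zero']
      show _ = (∑ j ∈ Finset.range (n + 1), u j t x) / θ x
      rw [Finset.sum_div]
    unfold ReW
    rw [e3, Finset.mul_sum, Finset.mul_sum]
    refine Finset.sum_congr rfl fun i _ => ?_
    show θ x ^ 3 * ((U t x / θ x - 1) * (u i t x / θ x * F i x)) = _
    field_simp
    ring
  have hsum : ∑ i ∈ Finset.range (n + 1), R i x =
      -(ρ 0 * (θ x ^ 2 * (∑ i ∈ Finset.range (n + 1), T i
        + ∑ i ∈ Finset.Ico 1 (n + 1), (Kr ρ + κ i) * S i)))
      + ∑ i ∈ Finset.range (n + 1), θ x * F i x * u i t x * (θ x - U t x) := by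
    have f1 : ∑ i ∈ Finset.range (n + 1), R i x = R 0 x + ∑ i ∈ Finset.Ico 1 (n + 1), R i x := by
      rw [Finset.range_eq_Ico, Finset.sum_eq_sum_Ico_succ_bot (by omega)]
    have f2 : ∑ i ∈ Finset.range (n + 1), T i = T 0 + ∑ i ∈ Finset.Ico 1 (n + 1), T i := by
      rw [Finset.range_eq_Ico, Finset.sum_eq_sum_Ico_succ_bot (by omega)]
    have f3 : ∑ i ∈ Finset.range (n + 1), θ x * F i x * u i t x * (θ x - U t x) =
        θ x * F 0 x * u 0 t x * (θ x - U t x)
          + ∑ i ∈ Finset.Ico 1 (n + 1), θ x * F i x * u i t x * (θ x - U t x) := by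
      rw [Finset.range_eq_Ico, Finset.sum_eq_sum_Ico_succ_bot (by omega)]
    have f4 : ∑ i ∈ Finset.Ico 1 (n + 1), R i x =
        -(ρ 0 * (θ x ^ 2 * (∑ i ∈ Finset.Ico 1 (n + 1), T i
          + ∑ i ∈ Finset.Ico 1 (n + 1), (Kr ρ + κ i) * S i)))
        + ∑ i ∈ Finset.Ico 1 (n + 1), θ x * F i x * u i t x * (θ x - U t x) := by
      rw [← Finset.sum_add_distrib, Finset.mul_sum, Finset.mul_sum, ← Finset.sum_neg_distrib,
        ← Finset.sum_add_distrib]
      exact Finset.sum_congr rfl fun i _ => hR i _ (hKi i)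
    rw [f1, f2, f3, f4, hR 0 0 hK0]
    ring
  show ∑ i ∈ Finset.range (n + 1), R i x =
    (-(ρ 0 * (θ x ^ 2 * QfW n ρ (θ x) (θ' x) (fun i => u i t x) (fun i => v i t x)))
        - θ x ^ 3 * ReW n ρ (θ x) (fun i => u i t x))
  rw [hsum, hQ, hRe, Finset.sum_neg_distrib]
  ring

end Pool.Agent.Lib.MP_4fbe7c_an.WN.H03
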